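import Mathlib
import Pool.Agent.J4H98.GK.Fin2
import Pool.Agent.J4H98.GK.Stab
import Pool.Agent.J4H98.GK.Sur
import Pool.Agent.J4H79.GK.Der

/-!
# Gekeler's conjecture: the converse of the Okada–Goss theorem for Carlitz cyclotomic fields

`A = Fq[X]` (the variable `X` is the `T` of the problem), `q = Fintype.card Fq`,
`K = RatFunc Fq`, `P` a monic irreducible polynomial of degree `d`, `F = K(l)` with `l ≠ 0` a
`P`-torsion point of the Carlitz module, `W = WittVector p (A/P)`.
-/

open Polynomial TensorProduct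

namespace Pool.Agent.Results.MP_a90b0f_nt.GekelerConverse

/-! ### The Carlitz module and the Bernoulli–Carlitz numbers -/

/-- The Carlitz module: the endomorphism `C_T : y ↦ T y + y ^ q` of an `Fq[T]`-algebra. -/
noncomputable def carlitzT (Fq : Type*) [Field Fq] [Fintype Fq] {R : Type*} [CommRing R]
    [Algebra Fq[X] R] (y : R) : R :=
  algebraMap Fq[X] R X * y + y ^ Fintype.card Fq

/-- The Carlitz module: for `a = ∑ c_i T^i`, `C_a(y) = ∑ c_i C_T^{∘ i}(y)`. -/
noncomputable def carlitz {Fq : Type*} [Field Fq] [Fintype Fq] {R : Type*} [CommRing R]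
    [Algebra Fq[X] R] (a : Fq[X]) (y : R) : R :=
  a.sum fun i c => algebraMap Fq[X] R (C c) * (carlitzT Fq)^[i] y

/-- `D_i = ∏_{j < i} (T^(q^i) - T^(q^j))`. -/
noncomputable def carlitzD (Fq : Type*) [Field Fq] [Fintype Fq] (i : ℕ) : Fq[X] :=
  ∏ j ∈ Finset.range i, (X ^ Fintype.card Fq ^ i - X ^ Fintype.card Fq ^ j)

/-- The Carlitz exponential `e(z) = ∑ z^(q^i) / D_i`, a power series over `K`. -/
noncomputable def carlitzExp (Fq : Type*) [Field Fq] [Fintype Fq] : PowerSeries (RatFunc Fq) :=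
  PowerSeries.mk fun n => ∑ i ∈ Finset.range (n + 1),
    if n = Fintype.card Fq ^ i then (algebraMap Fq[X] (RatFunc Fq) (carlitzD Fq i))⁻¹ else 0

/-- The power series `e(z) / z` (its constant coefficient is `1`). -/
noncomputable def carlitzExpDiv (Fq : Type*) [Field Fq] [Fintype Fq] :
    PowerSeries (RatFunc Fq) :=
  PowerSeries.mk fun n => PowerSeries.coeff (n + 1) (carlitzExp Fq)

/-- The Carlitz factorial `Π(n) = ∏ D_i^{n_i}`, where `n = ∑ n_i q^i`, `0 ≤ n_i < q`. -/
noncomputable def carlitzPi (Fq : Type*) [Field Fq] [Fintype Fq] (n : ℕ) : RatFunc Fq :=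
  ∏ i ∈ Finset.range (n + 1),
    (algebraMap Fq[X] (RatFunc Fq) (carlitzD Fq i)) ^ (n / Fintype.card Fq ^ i % Fintype.card Fq)

/-- The Bernoulli–Carlitz number `B_n`: `z / e(z) = ∑ (B_n / Π(n)) z^n`. -/
noncomputable def bernoulliCarlitz (Fq : Type*) [Field Fq] [Fintype Fq] (n : ℕ) : RatFunc Fq :=
  carlitzPi Fq n * PowerSeries.coeff n (carlitzExpDiv Fq)⁻¹

/-- `P` divides `x ∈ K`: `x = a / b` with `a, b ∈ A`, `P ∣ a`, `P ∤ b`. -/
def PDivides {Fq : Type*} [Field Fq] (P : Fq[X]) (x : RatFunc Fq) : Prop :=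
  ∃ a b : Fq[X], ¬ P ∣ b ∧ P ∣ a ∧
    x * algebraMap Fq[X] (RatFunc Fq) b = algebraMap Fq[X] (RatFunc Fq) a

/-! ### Class groups -/

/-- The ring of integers `𝒪_F`: the integral closure of `A = Fq[X]` in `F`. -/
def Integers (Fq F : Type) [Field Fq] [Field F] [Algebra Fq[X] F] : Type :=
  integralClosure Fq[X] F

noncomputable instance (Fq F : Type) [Field Fq] [Field F] [Algebra Fq[X] F] :
    CommRing (Integers Fq F) :=
  (integralClosure Fq[X] F).toCommRing

instance (Fq F : Type) [Field Fq] [Field F] [Algebra Fq[X] F] : IsDomain (Integers Fq F) :=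
  inferInstanceAs (IsDomain (integralClosure Fq[X] F))

/-- The ideal class group of a domain, written additively. -/
def Cl (O : Type) [CommRing O] [IsDomain O] : Type := Additive (ClassGroup O)

noncomputable instance (O : Type) [CommRing O] [IsDomain O] : AddCommGroup (Cl O) :=
  Additive.addCommGroup

/-- The map induced on the class group by a ring automorphism. -/
noncomputable def clMap {O : Type} [CommRing O] [IsDomain O] (g : O ≃+* O) : Cl O →+ Cl O :=
  MonoidHom.toAdditive (ClassGroup.mulEquiv g).toMonoidHom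

/-- The `p`-primary part of an abelian group, as a subgroup. -/
def primaryPart (p : ℕ) (G : Type) [AddCommGroup G] : AddSubgroup G where
  carrier := {x | ∃ n : ℕ, p ^ n • x = 0}
  zero_mem' := ⟨0, by simp⟩
  add_mem' := by
    rintro x y ⟨n, hn⟩ ⟨m, hm⟩
    refine ⟨n + m, ?_⟩
    rw [smul_add, pow_add, mul_comm, mul_smul, hn, smul_zero, mul_comm, mul_smul, hm, smul_zero,
      add_zero]
  neg_mem' := by
    rintro x ⟨n, hn⟩
    exact ⟨n, by rw [smul_neg, hn, neg_zero]⟩

/-- The `p`-primary part of an abelian group, as a type. -/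
def Primary (p : ℕ) (G : Type) [AddCommGroup G] : Type := primaryPart p G

instance (p : ℕ) (G : Type) [AddCommGroup G] : AddCommGroup (Primary p G) :=
  (primaryPart p G).toAddCommGroup

lemma map_primaryPart (p : ℕ) {G : Type} [AddCommGroup G] (f : G →+ G) {x : G}
    (hx : x ∈ primaryPart p G) : f x ∈ primaryPart p G := by
  obtain ⟨n, hn⟩ := hx
  exact ⟨n, by rw [← map_nsmul, hn, map_zero]⟩

/-- The restriction of an endomorphism to the `p`-primary part, as a `ℤ`-linear map. -/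
def primaryMap (p : ℕ) {G : Type} [AddCommGroup G] (f : G →+ G) :
    Primary p G →ₗ[ℤ] Primary p G :=
  AddMonoidHom.toIntLinearMap
    { toFun := fun x => ⟨f x.1, map_primaryPart p f x.2⟩
      map_zero' := Subtype.ext (map_zero f)
      map_add' := fun x y => Subtype.ext (map_add f x.1 y.1) }

/-- The action of `σ ∈ Gal(F/K)` on `𝒪_F`. -/
noncomputable def galInt {Fq F : Type} [Field Fq] [Field F] [Algebra Fq[X] F]
    [Algebra (RatFunc Fq) F] [IsScalarTower Fq[X] (RatFunc Fq) F] (σ : F ≃ₐ[RatFunc Fq] F) :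
    Integers Fq F ≃+* Integers Fq F :=
  ((σ.restrictScalars Fq[X]).mapIntegralClosure).toRingEquiv

/-- `C̃`: the `p`-primary part of the ideal class group of `𝒪_F`. -/
def ClassPart (p : ℕ) (Fq F : Type) [Field Fq] [Field F] [Algebra Fq[X] F] : Type :=
  Primary p (Cl (Integers Fq F))

noncomputable instance (p : ℕ) (Fq F : Type) [Field Fq] [Field F] [Algebra Fq[X] F] :
    AddCommGroup (ClassPart p Fq F) :=
  instAddCommGroupPrimary p (Cl (Integers Fq F))

/-- The action of `σ ∈ Gal(F/K)` on `C̃`. -/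
noncomputable def galClass (p : ℕ) {Fq F : Type} [Field Fq] [Field F] [Algebra Fq[X] F]
    [Algebra (RatFunc Fq) F] [IsScalarTower Fq[X] (RatFunc Fq) F] (σ : F ≃ₐ[RatFunc Fq] F) :
    ClassPart p Fq F →ₗ[ℤ] ClassPart p Fq F :=
  primaryMap p (clMap (galInt σ))

/-! ### Components -/

/-- `W ⊗_ℤ C` -/
def Ext (W C : Type) [CommRing W] [AddCommGroup C] : Type := W ⊗[ℤ] C

noncomputable instance (W C : Type) [CommRing W] [AddCommGroup C] : AddCommGroup (Ext W C) :=
  TensorProduct.addCommGroup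

noncomputable instance (W C : Type) [CommRing W] [AddCommGroup C] : Module W (Ext W C) :=
  TensorProduct.leftModule

/-- `id ⊗ f` on `W ⊗_ℤ C` -/
noncomputable def extMap (W : Type) {C : Type} [CommRing W] [AddCommGroup C] (f : C →ₗ[ℤ] C) :
    Ext W C →ₗ[W] Ext W C :=
  LinearMap.baseChange W f

/-- The component of `W ⊗_ℤ C` on which `G` (acting on `C` by `act`) acts through the
`W`-valued character `χ`. -/
def component {W C G : Type} [CommRing W] [AddCommGroup C] (act : G → C →ₗ[ℤ] C) (χ : G → W) :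
    Submodule W (Ext W C) where
  carrier := {x | ∀ g, extMap W (act g) x = χ g • x}
  zero_mem' := fun g => by rw [map_zero, smul_zero]
  add_mem' := fun hx hy g => by rw [map_add, hx g, hy g, smul_add]
  smul_mem' := fun c x hx g => by rw [map_smul, hx g, smul_comm]

/-- The power `w^n` of the Teichmuller character. -/
noncomputable def teich (p : ℕ) [Fact p.Prime] {k : Type} [Field k] (n : ℕ) (u : k) :
    WittVector p k :=
  WittVector.teichmuller p u ^ n

/-! ### The statement -/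

/-- `F = K(l)` is the `P`-th Carlitz cyclotomic field and `l` a generator of its `P`-torsion. -/
def IsCyclotomic {Fq : Type} [Field Fq] [Fintype Fq] (P : Fq[X]) {F : Type} [Field F]
    [Algebra Fq[X] F] [Algebra (RatFunc Fq) F] (l : F) : Prop :=
  l ≠ 0 ∧ carlitz P l = 0 ∧ IntermediateField.adjoin (RatFunc Fq) {l} = ⊤

/-- `P` divides `B_{k'}` for all `0 < k' < q^d - 1` in the orbit of `k` under multiplication by
`p` modulo `q^d - 1`. -/
def DividesOrbit (p : ℕ) {Fq : Type} [Field Fq] [Fintype Fq] (P : Fq[X]) (k : ℕ) : Prop :=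
  ∀ k', 0 < k' → k' < Fintype.card Fq ^ P.natDegree - 1 →
    (∃ m : ℕ, k' ≡ p ^ m * k [MOD Fintype.card Fq ^ P.natDegree - 1]) →
      PDivides P (bernoulliCarlitz Fq k')

/-- The group `(A/P)ˣ`. -/
def UnitsMod {Fq : Type} [Field Fq] (P : Fq[X]) : Type := (AdjoinRoot P)ˣ

noncomputable instance {Fq : Type} [Field Fq] (P : Fq[X]) : Group (UnitsMod P) :=
  Units.instGroup

/-- The residue class in `A/P` of an element of `(A/P)ˣ`. -/
def UnitsMod.val {Fq : Type} [Field Fq] {P : Fq[X]} (u : UnitsMod P) : AdjoinRoot P :=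
  Units.val u

/-- The Galois group `Gal(F/K)`. -/
def GalGroup (Fq F : Type) [Field Fq] [Field F] [Algebra (RatFunc Fq) F] : Type :=
  F ≃ₐ[RatFunc Fq] F

noncomputable instance (Fq F : Type) [Field Fq] [Field F] [Algebra (RatFunc Fq) F] :
    Group (GalGroup Fq F) :=
  AlgEquiv.aut

/-- The value `σ(y)` of `σ ∈ Gal(F/K)` at `y ∈ F`. -/
def GalGroup.app {Fq F : Type} [Field Fq] [Field F] [Algebra (RatFunc Fq) F]
    (σ : GalGroup Fq F) (y : F) : F :=
  AlgEquiv.toEquiv σ y

/-- The component `C̃(w^k)` of `W ⊗ C̃` for an action `ρ` of `(A/P)ˣ` on `F`. -/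
noncomputable def eigenPart (p : ℕ) [Fact p.Prime] {Fq : Type} [Field Fq] (P : Fq[X])
    [Fact (Irreducible P)] {F : Type} [Field F] [Algebra Fq[X] F] [Algebra (RatFunc Fq) F]
    [IsScalarTower Fq[X] (RatFunc Fq) F] (ρ : UnitsMod P → GalGroup Fq F) (k : ℕ) :
    Submodule (WittVector p (AdjoinRoot P)) (Ext (WittVector p (AdjoinRoot P)) (ClassPart p Fq F)) :=
  component (fun u : UnitsMod P => galClass p (ρ u)) (fun u => teich p k u.val)

/-- `C̃(w^k) ≠ 0`. -/
def EigenPartNeZero (p : ℕ) [Fact p.Prime] {Fq : Type} [Field Fq] (P : Fq[X])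
    [Fact (Irreducible P)] {F : Type} [Field F] [Algebra Fq[X] F] [Algebra (RatFunc Fq) F]
    [IsScalarTower Fq[X] (RatFunc Fq) F] (ρ : UnitsMod P → GalGroup Fq F) (k : ℕ) : Prop :=
  eigenPart p P ρ k ≠ ⊥

/-- `ρ(a)(l) = C_a(l)` for all `a ∈ A` prime to `P`. -/
def IsCarlitzAction {Fq : Type} [Field Fq] [Fintype Fq] (P : Fq[X]) {F : Type} [Field F]
    [Algebra Fq[X] F] [Algebra (RatFunc Fq) F] (l : F) (ρ : UnitsMod P → GalGroup Fq F) : Prop :=
  ∀ (u : UnitsMod P) (a : Fq[X]), AdjoinRoot.mk P a = u.val → (ρ u).app l = carlitz a l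

/-- **Gekeler's conjecture.** Let `0 < k < q^d - 1`, `(q - 1) ∣ k`, and suppose that `P` divides
`B_{k'}` for every `0 < k' < q^d - 1` congruent to some `p^m k` modulo `q^d - 1`. Then the
component `C̃(w^k)` of `W ⊗ C̃` on which `(A/P)ˣ = Gal(F/K)` acts through `w^k` is not zero. -/
theorem result (p : ℕ) [Fact p.Prime] (Fq : Type) [Field Fq] [Fintype Fq] [CharP Fq p]
    (P : Fq[X]) [Fact (Irreducible P)] (hP : P.Monic)
    (F : Type) [Field F] [Algebra Fq[X] F] [Algebra (RatFunc Fq) F]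
    [IsScalarTower Fq[X] (RatFunc Fq) F]
    (l : F) (hl : IsCyclotomic P l)
    (k : ℕ) (hk0 : 0 < k) (hkN : k < Fintype.card Fq ^ P.natDegree - 1)
    (hkq : Fintype.card Fq - 1 ∣ k) (hB : DividesOrbit p P k) :
    ∃ ρ : UnitsMod P ≃* GalGroup Fq F, IsCarlitzAction P l ρ ∧ EigenPartNeZero p P ρ k := by
  obtain ⟨ρ, hρ, x, hx0, hx⟩ := J4H98.GK.final J4H79.GK.t_der J4H98.GK.t_stab J4H98.GK.t_sur
    p Fq P hP F l hl.1 hl.2.1 hl.2.2 k hk0 hkN hkq hB
  refine ⟨ρ, hρ, ?_⟩
  intro (h : eigenPart p P (F := F) (fun u => ρ u) k = ⊥)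
  have h1 : x ∈ eigenPart p P (F := F) (fun u => ρ u) k := fun u => hx u
  have h2 : ∀ y ∈ eigenPart p P (F := F) (fun u => ρ u) k, y = 0 := by
    rw [h]; exact fun y hy => hy
  exact hx0 (h2 x h1)

end Pool.Agent.Results.MP_a90b0f_nt.GekelerConverse
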